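import Pool.Agent.X48.PD.N

/-!
# MP_fab899_nt: congruences modulo 192 for partitions with distinct even parts

Let `f_k = ∏ (1 - q^(k i))`. The proof has these steps, all on formal power series.
* 3-dissections of `φ(-q) = f_1²/f_2` and `ψ(q) = f_2²/f_1` (from the triple product), and the product
  of `f_1` over the third roots of unity, give two relations of level 6; with `q → -q` and some algebra
  they give `ψ(q²)² + q ψ(q⁶)² = f_3³ f_4 f_12 / (f_1 f_6²)` (file `PD.D`, `PD.G`).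
* `∑ ped(9n+7) q^n = 12 f_2⁴ f_3⁶ f_4 / f_1¹¹` (Andrews, Hirschhorn, Sellers; file `PD.H`).
* `f_2⁴ f_3⁶ f_4 / f_1¹¹ ≡ P(-q) f_6⁷ / f_12²` modulo 16, where `P(q³)` is the part of `f_1³` with
  exponents divisible by 3, and `f_6⁷ / f_12² ≡ 2 f_6³ - ψ(q⁶)` modulo 16 (files `PD.I`, `PD.M`).
* By Jacobi's identity for `f_1³`, the coefficient of `q^m` vanishes modulo 16 unless
  `24 m + 19 = x² + 18 y²` (file `PD.N`).
-/

set_option autoImplicit false

namespace Pool.Agent.Results.MP_fab899_nt.Mod192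

/-- the number of partitions of `n` in which every even part occurs at most once (the odd parts may
be repeated) -/
def ped (n : ℕ) : ℕ :=
  (Finset.univ.filter fun p : Nat.Partition n => ∀ i ∈ p.parts, Even i → p.parts.count i ≤ 1).card

/-- First part: `192 ∣ ped (9 m + 7)` whenever `24 m + 19` is not of the form `x² + 18 y²`.
Second part: the congruences of Q1. -/
theorem result :
    (∀ m : ℕ, (¬ ∃ x y : ℕ, 24 * m + 19 = x ^ 2 + 18 * y ^ 2) → 192 ∣ ped (9 * m + 7)) ∧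
    ∀ (p : ℕ) [Fact p.Prime], 5 ≤ p → legendreSym p (-2) = -1 →
      ∀ t : ℕ, Nat.Coprime t 6 → p ∣ t → ∀ n j : ℕ, 1 ≤ j → j ≤ p - 1 →
        192 ∣ ped (9 * t ^ 2 * n + 9 * t ^ 2 * j / p + (57 * t ^ 2 - 1) / 8) := by
  refine ⟨fun m hm => ?_, fun p _ h5 hp t ht hpt n j h1 h2 =>
    Pool.Agent.X48.PD.main p h5 hp t ht hpt n j h1 h2⟩
  have key : (16 : ℤ) ∣ PowerSeries.coeff m Pool.Agent.X48.PD.Cs := by
    apply Pool.Agent.X48.PD.Cs_dvd
    rintro ⟨x, y, hxy⟩
    apply hm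
    refine ⟨x.natAbs, y.natAbs, ?_⟩
    have : ((24 * m + 19 : ℕ) : ℤ) = ((x.natAbs ^ 2 + 18 * y.natAbs ^ 2 : ℕ) : ℤ) := by
      push_cast
      rw [sq_abs, sq_abs]
      exact hxy
    exact_mod_cast this
  obtain ⟨c, hc⟩ := key
  have h := Pool.Agent.X48.PD.ped_Cs m
  rw [hc] at h
  have : (192 : ℤ) ∣ (Pool.Agent.X48.PD.ped (9 * m + 7) : ℤ) := ⟨c, by rw [h]; ring⟩
  exact_mod_cast this

end Pool.Agent.Results.MP_fab899_nt.Mod192
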